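import Mathlib

set_option autoImplicit false

/-!
Verified search for representations `n = x² + y² + z² + w²` with
`k x y (a x² + b y² + c z²)` a square, by bit operations on natural numbers.
-/

namespace Pool.Agent.FourSq

/-- `p i` holds for all `i < k`. -/
def allB (p : ℕ → Bool) (k : ℕ) : Bool := Nat.rec true (fun i r => and (p i) r) k

lemma allB_spec {p : ℕ → Bool} {k : ℕ} (h : allB p k = true) : ∀ i < k, p i = true := by
  induction k with
  | zero => intro i hi; omega
  | succ k ih =>
    have h' : (p k && allB p k) = true := h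
    rw [Bool.and_eq_true] at h'
    intro i hi
    rcases Nat.lt_succ_iff_lt_or_eq.mp hi with h1 | h1
    · exact ih h'.2 i h1
    · rw [h1]; exact h'.1

/-- `p i` holds for some `i < k`. -/
def anyB (p : ℕ → Bool) (k : ℕ) : Bool := Nat.rec false (fun i r => or (p i) r) k

lemma anyB_of {p : ℕ → Bool} {k i : ℕ} (hi : i < k) (h : p i = true) : anyB p k = true := by
  induction k with
  | zero => omega
  | succ k ih =>
    have e : anyB p (k+1) = (p k || anyB p k) := rfl
    rw [e, Bool.or_eq_true]
    rcases Nat.lt_succ_iff_lt_or_eq.mp hi with h1 | h1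
    · right; exact ih h1
    · left; rw [← h1]; exact h

/-- Force the evaluation of a natural number before passing it on. -/
def force {α : Type} (n : ℕ) (f : ℕ → α) : α := Nat.rec (f 0) (fun m _ => f (m + 1)) n

lemma force_eq {α : Type} (n : ℕ) (f : ℕ → α) : force n f = f n := by
  cases n <;> rfl

/-- Number whose binary digit `i < K` is `1` when `f i`. -/
def pat (f : ℕ → Bool) (K : ℕ) : ℕ :=
  Nat.rec 0 (fun i r => bif f i then Nat.lor (2 ^ i) r else r) K

lemma pat_spec {f : ℕ → Bool} {K : ℕ} : ∀ i < K, f i = true → (pat f K).testBit i = true := by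
  induction K with
  | zero => intro i hi; omega
  | succ K ih =>
    intro i hi hf
    have h : pat f (K+1) = bif f K then Nat.lor (2 ^ K) (pat f K) else pat f K := rfl
    rcases Nat.lt_succ_iff_lt_or_eq.mp hi with h1 | h1
    · have h2 := ih i h1 hf
      rw [h]
      cases hK : f K
      · exact h2
      · rw [cond_true]
        have : Nat.lor (2 ^ K) (pat f K) = (2 ^ K) ||| (pat f K) := rfl
        rw [this, Nat.testBit_or, h2, Bool.or_true]
    · subst h1
      rw [h, hf, cond_true]
      have : Nat.lor (2 ^ i) (pat f i) = (2 ^ i) ||| (pat f i) := rfl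
      rw [this, Nat.testBit_or, Nat.testBit_two_pow_self, Bool.true_or]

/-- Bit mask of the values `f i`, `i < K`. -/
def maskf (f : ℕ → ℕ) (K : ℕ) : ℕ := Nat.rec 0 (fun i r => Nat.lor (2 ^ (f i)) r) K

lemma maskf_spec {f : ℕ → ℕ} {K : ℕ} : ∀ i < K, (maskf f K).testBit (f i) = true := by
  induction K with
  | zero => intro i hi; omega
  | succ K ih =>
    intro i hi
    have h : maskf f (K+1) = (2 ^ (f K)) ||| (maskf f K) := rfl
    rw [h, Nat.testBit_or]
    rcases Nat.lt_succ_iff_lt_or_eq.mp hi with h1 | h1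
    · rw [ih i h1, Bool.or_true]
    · rw [h1, Nat.testBit_two_pow_self, Bool.true_or]

/-- Periodic mask with period `p` and pattern `s`, of length `p 2^K`. -/
def per (p s K : ℕ) : ℕ := Nat.rec s (fun k r => Nat.lor r (Nat.shiftLeft r (p * 2 ^ k))) K

lemma per_spec {p s K : ℕ} : ∀ t < p * 2 ^ K, s.testBit (t % p) = true →
    (per p s K).testBit t = true := by
  induction K with
  | zero =>
    intro t ht hs
    have h0 : per p s 0 = s := rfl
    rw [h0]
    rw [pow_zero, mul_one] at ht
    rwa [Nat.mod_eq_of_lt ht] at hs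
  | succ K ih =>
    intro t ht hs
    have h : per p s (K+1) = (per p s K) ||| ((per p s K) <<< (p * 2 ^ K)) := rfl
    rw [h, Nat.testBit_or, Nat.testBit_shiftLeft]
    by_cases h1 : t < p * 2 ^ K
    · rw [ih t h1 hs, Bool.true_or]
    · push Not at h1
      have h2 : t - p * 2 ^ K < p * 2 ^ K := by
        have e : p * 2 ^ (K + 1) = p * 2 ^ K + p * 2 ^ K := by rw [pow_succ]; ring
        omega
      have h3 : (t - p * 2 ^ K) % p = t % p := by
        conv_rhs => rw [← Nat.sub_add_cancel h1]
        rw [Nat.add_mul_mod_self_left]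
      have h4 := ih (t - p * 2 ^ K) h2 (by rw [h3]; exact hs)
      rw [h4]
      simp [h1]

/-- Kernel friendly bit test. -/
def tb (m i : ℕ) : Bool := Nat.beq (Nat.land 1 (Nat.shiftRight m i)) 1

lemma tb_eq (m i : ℕ) : tb m i = m.testBit i := by
  unfold tb Nat.testBit
  have h1 : Nat.land 1 (Nat.shiftRight m i) = 1 &&& (m >>> i) := rfl
  rw [h1, Nat.one_and_eq_mod_two]
  rcases Nat.mod_two_eq_zero_or_one (m >>> i) with h | h <;> rw [h] <;> rfl

/-- An entry: prime `p`, inverse of `c`, exponent `K`, pattern of the squares, pattern of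
nonsquares and `0`. -/
abbrev Entry := ℕ × ℕ × ℕ × ℕ × ℕ

/-- Validity of an entry for positions below `T`. -/
def validB (c T : ℕ) (t : Entry) : Bool :=
  Nat.beq (c * t.2.1 % t.1) 1 && Nat.blt 0 t.1 && Nat.ble (T + t.1) (t.1 * 2 ^ t.2.2.1) &&
  allB (fun j => tb t.2.2.2.1 (j * j % t.1)) t.1 &&
  allB (fun U => allB (fun r => or (Nat.beq U 0) (or (!(tb t.2.2.2.1 (U * r % t.1)))
    (bif tb t.2.2.2.1 U then tb t.2.2.2.1 r else tb t.2.2.2.2 r))) t.1) t.1

/-- `p` holds for all members of a list. -/
def allL {α : Type} (p : α → Bool) (l : List α) : Bool := List.rec true (fun t _ r => and (p t) r) l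

lemma allL_cons {α : Type} {p : α → Bool} {a : α} {l : List α} (h : allL p (a :: l) = true) :
    p a = true ∧ allL p l = true := by
  have h' : (p a && allL p l) = true := h
  rwa [Bool.and_eq_true] at h'

/-- The chain of quadratic residue masks. -/
def chain (c P base : ℕ) (l : List Entry) : ℕ → Bool :=
  List.rec (fun B => Nat.beq B 0)
    (fun t _ r B => bif Nat.beq B 0 then true else
      force ((P * c) % t.1) fun U =>
      bif Nat.beq U 0 then r B else
      r (Nat.land B (Nat.shiftRight
        (bif tb t.2.2.2.1 U then per t.1 t.2.2.2.1 t.2.2.1 else per t.1 t.2.2.2.2 t.2.2.1)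
        ((base * t.2.1) % t.1)))) l

lemma chain_spec {c P base T : ℕ} {t : ℕ} (hsq : IsSquare (P * (base + c * t))) (hT : t < T) :
    ∀ (l : List Entry), allL (validB c T) l = true → ∀ B : ℕ, B.testBit t = true →
      chain c P base l B = true → False := by
  intro l
  induction l with
  | nil =>
    intro _ B hB h
    have h' : Nat.beq B 0 = true := h
    rw [Nat.beq_eq] at h'
    rw [h'] at hB
    simp at hB
  | cons e l ih =>
    intro hv B hB h
    obtain ⟨hv1, hv2⟩ := allL_cons hv
    have h' : (bif Nat.beq B 0 then true else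
      force ((P * c) % e.1) fun U =>
      bif Nat.beq U 0 then chain c P base l B else
      chain c P base l (Nat.land B (Nat.shiftRight
        (bif tb e.2.2.2.1 U then per e.1 e.2.2.2.1 e.2.2.1 else per e.1 e.2.2.2.2 e.2.2.1)
        ((base * e.2.1) % e.1)))) = true := h
    have hB0 : Nat.beq B 0 = false := by
      rw [← Bool.not_eq_true, Nat.beq_eq]
      rintro rfl
      simp at hB
    simp only [force_eq] at h'
    rw [hB0, cond_false] at h'
    obtain ⟨p, inv, K, sp, np⟩ := e
    simp only [validB, Bool.and_eq_true, Nat.beq_eq, Nat.blt_eq, Nat.ble_eq] at hv1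
    obtain ⟨⟨⟨⟨hinv, hp⟩, hK⟩, hv3⟩, hv4⟩ := hv1
    simp only at h'
    by_cases hU : (P * c) % p = 0
    · have : Nat.beq ((P * c) % p) 0 = true := by rw [Nat.beq_eq]; exact hU
      rw [this, cond_true] at h'
      exact ih hv2 B hB h'
    · have hU' : Nat.beq ((P * c) % p) 0 = false := by
        rw [← Bool.not_eq_true, Nat.beq_eq]; exact hU
      rw [hU', cond_false] at h'
      refine ih hv2 _ ?_ h'
      set U := (P * c) % p with hUdef
      set ee := (base * inv) % p with hee
      have hUlt : U < p := Nat.mod_lt _ hp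
      have helt : ee < p := Nat.mod_lt _ hp
      have hrlt : (t + ee) % p < p := Nat.mod_lt _ hp
      -- the value modulo p
      have hval : U * ((t + ee) % p) % p = (P * (base + c * t)) % p := by
        have e1 : U * ((t + ee) % p) ≡ (P * c) * (t + base * inv) [MOD p] := by
          apply Nat.ModEq.mul (Nat.mod_modEq _ _)
          exact (Nat.mod_modEq _ _).trans (Nat.ModEq.add_left t (Nat.mod_modEq _ _))
        have e2 : (P * c) * (t + base * inv) = P * (c * t) + (P * base) * (c * inv) := by ring
        have e3 : (P * base) * (c * inv) ≡ (P * base) * 1 [MOD p] := by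
          apply Nat.ModEq.mul_left
          have : 1 % p = 1 := by
            rw [← hinv, Nat.mod_mod]
          unfold Nat.ModEq
          rw [hinv, this]
        have e4 : P * (base + c * t) = P * (c * t) + (P * base) * 1 := by ring
        rw [e2] at e1
        rw [e4]
        exact e1.trans (Nat.ModEq.add_left _ e3)
      obtain ⟨s, hs⟩ := hsq
      have hsqbit : tb sp (U * ((t + ee) % p) % p) = true := by
        rw [hval, hs, Nat.mul_mod]
        exact allB_spec hv3 (s % p) (Nat.mod_lt _ hp)
      have h5 := allB_spec (allB_spec hv4 U hUlt) _ hrlt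
      rw [hU', Bool.false_or, hsqbit, Bool.not_true, Bool.false_or] at h5
      have hlen : t + ee < p * 2 ^ K := by omega
      have hbit : (bif tb sp U then per p sp K else per p np K).testBit (t + ee) = true := by
        cases hc : tb sp U
        · rw [hc, cond_false, tb_eq] at h5
          rw [cond_false]
          exact per_spec _ hlen h5
        · rw [hc, cond_true, tb_eq] at h5
          rw [cond_true]
          exact per_spec _ hlen h5
      have : Nat.land B (Nat.shiftRight (bif tb sp U then per p sp K else per p np K) ee)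
        = B &&& ((bif tb sp U then per p sp K else per p np K) >>> ee) := rfl
      rw [this, Nat.testBit_and, hB, Bool.true_and, Nat.testBit_shiftRight, add_comm ee t]
      exact hbit

/-- The test for fixed `x, y`; `S` is a mask of the `(z² - z0)/8` and `W` a reversed mask of the
`(w² - 1)/8`. -/
def testP (k a b c z0 S W : ℕ) (l : List Entry) (x y : ℕ) : Bool :=
  force (a * x * x + b * y * y + c * z0) fun base =>
  force (k * x * y) fun P =>
  force ((x * x + y * y + z0 - 6) / 8) fun q =>
  chain (8 * c) P base l (Nat.land S (Nat.shiftRight W q))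

lemma testP_spec {k a b c x y z0 M T : ℕ} {S W : ℕ} {l : List Entry}
    (hl : allL (validB (8 * c) T) l = true)
    (h : testP k a b c z0 S W l x y = true) :
    ∀ z w iz iw, z ^ 2 = 8 * iz + z0 → w ^ 2 = 8 * iw + 1 → S.testBit iz = true →
      W.testBit (M - iw) = true → iz < T → 6 ≤ x * x + y * y + z0 →
      x ^ 2 + y ^ 2 + z ^ 2 + w ^ 2 = 8 * M + 7 →
      ¬ IsSquare (k * x * y * (a * x ^ 2 + b * y ^ 2 + c * z ^ 2)) := by
  intro z w iz iw hz hw hS hW hT h6 hn hsq
  unfold testP at h
  simp only [force_eq] at h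
  have e1 : x ^ 2 = x * x := pow_two x
  have e2 : y ^ 2 = y * y := pow_two y
  have hbit : (Nat.land S (Nat.shiftRight W ((x * x + y * y + z0 - 6) / 8))).testBit iz = true := by
    have : Nat.land S (Nat.shiftRight W ((x * x + y * y + z0 - 6) / 8))
      = S &&& (W >>> ((x * x + y * y + z0 - 6) / 8)) := rfl
    rw [this, Nat.testBit_and, Nat.testBit_shiftRight, hS]
    have e : (x * x + y * y + z0 - 6) / 8 + iz = M - iw := by omega
    rw [e, hW]
    rfl
  refine chain_spec (c := 8 * c) (P := k * x * y) (base := a * x * x + b * y * y + c * z0)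
    (t := iz) ?_ hT l hl _ hbit h
  have e : k * x * y * (a * x * x + b * y * y + c * z0 + 8 * c * iz)
      = k * x * y * (a * x ^ 2 + b * y ^ 2 + c * z ^ 2) := by rw [hz]; ring
  rw [e]; exact hsq

/-- Local condition modulo `m` for the pair `(x, y)`. -/
def locB (n k a b c m x y : ℕ) : Bool :=
  anyB (fun z => and
    (anyB (fun w => Nat.beq ((x * x + y * y + z * z + w * w) % m) (n % m)) m)
    (anyB (fun s => Nat.beq ((k * x * y * (a * x * x + b * y * y + c * (z * z))) % m) (s * s % m)) m)) m

lemma locB_spec {n k a b c m x y z w : ℕ} (hm : 0 < m) (hn : x ^ 2 + y ^ 2 + z ^ 2 + w ^ 2 = n)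
    (hsq : IsSquare (k * x * y * (a * x ^ 2 + b * y ^ 2 + c * z ^ 2))) :
    locB n k a b c m (x % m) (y % m) = true := by
  have hx : x % m ≡ x [MOD m] := Nat.mod_modEq _ _
  have hy : y % m ≡ y [MOD m] := Nat.mod_modEq _ _
  have hz : z % m ≡ z [MOD m] := Nat.mod_modEq _ _
  have hw : w % m ≡ w [MOD m] := Nat.mod_modEq _ _
  apply anyB_of (Nat.mod_lt z hm)
  rw [Bool.and_eq_true]
  constructor
  · apply anyB_of (Nat.mod_lt w hm)
    rw [Nat.beq_eq, ← hn]
    have e : x ^ 2 + y ^ 2 + z ^ 2 + w ^ 2 = x * x + y * y + z * z + w * w := by ring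
    rw [e]
    exact (((hx.mul hx).add (hy.mul hy)).add (hz.mul hz)).add (hw.mul hw)
  · obtain ⟨s, hs⟩ := hsq
    apply anyB_of (Nat.mod_lt s hm)
    rw [Nat.beq_eq]
    have hs' : s % m ≡ s [MOD m] := Nat.mod_modEq _ _
    have e : k * x * y * (a * x ^ 2 + b * y ^ 2 + c * z ^ 2)
        = k * x * y * (a * x * x + b * y * y + c * (z * z)) := by ring
    rw [e] at hs
    have h1 : k * (x % m) * (y % m) * (a * (x % m) * (x % m) + b * (y % m) * (y % m)
        + c * ((z % m) * (z % m))) ≡ k * x * y * (a * x * x + b * y * y + c * (z * z)) [MOD m] := by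
      apply Nat.ModEq.mul ((hx.mul_left k).mul hy)
      exact ((((hx.mul_left a).mul hx)).add ((hy.mul_left b).mul hy)).add ((hz.mul hz).mul_left c)
    rw [hs] at h1
    exact h1.trans (hs'.mul hs').symm

/-- Table of the local condition. -/
def locTab (n k a b c m : ℕ) : ℕ := pat (fun i => locB n k a b c m (i / m) (i % m)) (m * m)

lemma locTab_spec {n k a b c m x y z w : ℕ} (hm : 0 < m) (hn : x ^ 2 + y ^ 2 + z ^ 2 + w ^ 2 = n)
    (hsq : IsSquare (k * x * y * (a * x ^ 2 + b * y ^ 2 + c * z ^ 2))) :
    tb (locTab n k a b c m) (x % m * m + y % m) = true := by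
  rw [tb_eq]
  have hx := Nat.mod_lt x hm
  have hy := Nat.mod_lt y hm
  apply pat_spec
  · nlinarith
  · have e1 : (x % m * m + y % m) / m = x % m := by
      rw [Nat.add_comm, Nat.add_mul_div_right _ _ hm, Nat.div_eq_of_lt hy, zero_add]
    have e2 : (x % m * m + y % m) % m = y % m := by
      rw [Nat.add_comm, Nat.add_mul_mod_self_right, Nat.mod_mod]
    rw [e1, e2]
    exact locB_spec hm hn hsq

/-- Data: the four tables modulo 16, 9, 5, 7. -/
abbrev Tabs := ℕ × ℕ × ℕ × ℕ

/-- Test for all `y = m i + r`, `i < I`. -/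
def testX (n k a b c z0 S W : ℕ) (l : List Entry) (t : Tabs) (x m r I : ℕ) : Bool :=
  allB (fun i => force (m * i + r) fun y =>
    bif Nat.blt n (x * x + y * y) then true else
    bif tb t.1 (x % 16 * 16 + y % 16) then
    bif tb t.2.1 (x % 9 * 9 + y % 9) then
    bif tb t.2.2.1 (x % 5 * 5 + y % 5) then
    bif tb t.2.2.2 (x % 7 * 7 + y % 7) then
      testP k a b c z0 S W l x y
    else true else true else true else true) I

/-- Test for all `x = m i + r`, `I0 ≤ i < I0 + d`, and `y = m' j + r'`, `j < J`. -/
def run (n k a b c z0 : ℕ) (S W : ℕ) (l : List Entry) (t : Tabs) (m r I0 d m' r' J : ℕ) : Bool :=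
  force S fun S => force W fun W =>
  allB (fun i => force (m * (I0 + i) + r) fun x => testX n k a b c z0 S W l t x m' r' J) d

lemma run_spec {n k a b c z0 S W M T m r I0 d m' r' J : ℕ} {l : List Entry} {t : Tabs}
    (hl : allL (validB (8 * c) T) l = true) (hnM : n = 8 * M + 7)
    (ht : t = (locTab n k a b c 16, locTab n k a b c 9, locTab n k a b c 5, locTab n k a b c 7))
    (h : run n k a b c z0 S W l t m r I0 d m' r' J = true) :
    ∀ i j z w iz iw, I0 ≤ i → i < I0 + d → j < J →
      z ^ 2 = 8 * iz + z0 → w ^ 2 = 8 * iw + 1 → S.testBit iz = true →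
      W.testBit (M - iw) = true → iz < T →
      6 ≤ (m * i + r) * (m * i + r) + (m' * j + r') * (m' * j + r') + z0 →
      (m * i + r) ^ 2 + (m' * j + r') ^ 2 + z ^ 2 + w ^ 2 = n →
      ¬ IsSquare (k * (m * i + r) * (m' * j + r') *
        (a * (m * i + r) ^ 2 + b * (m' * j + r') ^ 2 + c * z ^ 2)) := by
  intro i j z w iz iw hi1 hi2 hj hz hw hS hW hT h6 hn hsq
  unfold run at h
  simp only [force_eq] at h
  obtain ⟨i, rfl⟩ := Nat.exists_eq_add_of_le hi1
  have h1 := allB_spec h i (by omega)
  unfold testX at h1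
  have h2 := allB_spec h1 j hj
  simp only [force_eq] at h2
  set x := m * (I0 + i) + r with hx
  set y := m' * j + r' with hy
  have h0 : Nat.blt n (x * x + y * y) = false := by
    rw [← Bool.not_eq_true, Nat.blt_eq]
    have e1 : x ^ 2 = x * x := pow_two x
    have e2 : y ^ 2 = y * y := pow_two y
    omega
  rw [ht] at h2
  simp only at h2
  rw [h0, cond_false, locTab_spec (by norm_num) hn hsq, cond_true,
    locTab_spec (by norm_num) hn hsq, cond_true,
    locTab_spec (by norm_num) hn hsq, cond_true,
    locTab_spec (by norm_num) hn hsq, cond_true] at h2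
  exact testP_spec hl h2 z w iz iw hz hw hS hW hT h6 (hn.trans hnM) hsq

attribute [irreducible] run maskf allL validB locTab

end Pool.Agent.FourSq
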