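import Mathlib
import Pool.Agent.FourSq.Bits

set_option autoImplicit false

/-! Data for the counterexample for the triple (18, 38, 18) : `n = 822335`. -/

namespace Pool.Agent.FourSq

/-- Residue data. -/
def ents2 : List Entry :=
  [(5, 3, 15, 19, 13),
   (7, 4, 14, 23, 105),
   (11, 2, 14, 571, 1477),
   (13, 2, 13, 5659, 2533),
   (17, 13, 13, 107287, 23785),
   (19, 14, 13, 199411, 324877),
   (23, 8, 13, 340831, 8047777),
   (29, 27, 12, 332473075, 204397837),
   (31, 28, 12, 303908791, 1843574857),
   (37, 18, 12, 96068509339, 41370444133),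
   (41, 4, 12, 1870503675703, 328519579849),
   (43, 3, 12, 3678700564051, 5117392458157),
   (47, 32, 12, 4626135339999, 136111353015329),
   (53, 14, 11, 5310023542746835, 3697175711994157),
   (59, 50, 11, 156326468341437115, 420134283961986373),
   (61, 50, 11, 1662926210933060155, 642916798280633797),
   (67, 27, 11, 61808106872519771731, 85765845717156641197),
   (71, 1, 11, 20052041432995567487, 2341131200001827039361),
   (73, 72, 11, 9059857384996697084767, 384875580742593342625),
   (79, 45, 11, 89932533647391829339959, 514530376159922758013129),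
   (83, 15, 11, 2911111237809585785085595, 6760295319107447612563813),
   (89, 68, 11, 526807005835216593886842679, 92163013807473543562719433),
   (97, 31, 11, 152076272278209298711361952607, 6380052750319376475725948065)]

lemma ents2_valid : allL (validB (8 * 9) 102792) ents2 = true := by decide +kernel

/-- Local tables. -/
def tabs2 : Tabs :=
  (77194726158210522702472504295042685049603479058346520326954173430617416007680,
   952231470646649579936767, 14273983, 527746216228863)

lemma tabs2_valid : tabs2 = (locTab 822335 2 9 19 9 16, locTab 822335 2 9 19 9 9,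
    locTab 822335 2 9 19 9 5, locTab 822335 2 9 19 9 7) := by
  have h : (Nat.beq tabs2.1 (locTab 822335 2 9 19 9 16) &&
    Nat.beq tabs2.2.1 (locTab 822335 2 9 19 9 9) &&
    Nat.beq tabs2.2.2.1 (locTab 822335 2 9 19 9 5) &&
    Nat.beq tabs2.2.2.2 (locTab 822335 2 9 19 9 7)) = true := by decide +kernel
  simp only [Bool.and_eq_true, Nat.beq_eq] at h
  obtain ⟨⟨⟨h1, h2⟩, h3⟩, h4⟩ := h
  exact Prod.ext h1 (Prod.ext h2 (Prod.ext h3 h4))

end Pool.Agent.FourSq
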