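import Mathlib

set_option autoImplicit false

/-! Parity classes of the variables in `x² + y² + z² + w² = 8 M + 7`. -/

namespace Pool.Agent.FourSq

lemma cls (u : ℕ) : (∃ j, u = 2 * j + 1 ∧ u ^ 2 = 8 * (j * (j + 1) / 2) + 1) ∨
    (∃ i, u = 4 * i + 2 ∧ u ^ 2 = 8 * (2 * i * (i + 1)) + 4) ∨ (∃ i, u ^ 2 = 8 * i) := by
  have h4 := Nat.div_add_mod u 4
  have hlt := Nat.mod_lt u (by norm_num : 0 < 4)
  have hodd : ∀ j, (2 * j + 1) ^ 2 = 8 * (j * (j + 1) / 2) + 1 := by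
    intro j
    have h : 2 ∣ j * (j + 1) := (Nat.even_mul_succ_self j).two_dvd
    obtain ⟨k, hk⟩ := h
    rw [hk, Nat.mul_div_cancel_left _ (by norm_num)]
    have e : (2 * j + 1) ^ 2 = 4 * (j * (j + 1)) + 1 := by ring
    rw [e, hk]; ring
  have hcase : u = 4 * (u / 4) ∨ u = 2 * (2 * (u / 4)) + 1 ∨ u = 4 * (u / 4) + 2 ∨
      u = 2 * (2 * (u / 4) + 1) + 1 := by omega
  rcases hcase with h | h | h | h
  · right; right
    refine ⟨2 * (u / 4) ^ 2, ?_⟩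
    conv_lhs => rw [h]
    ring
  · left
    refine ⟨_, h, ?_⟩
    conv_lhs => rw [h]
    exact hodd _
  · right; left
    refine ⟨u / 4, h, ?_⟩
    conv_lhs => rw [h]
    ring
  · left
    refine ⟨_, h, ?_⟩
    conv_lhs => rw [h]
    exact hodd _

lemma two_odd {m : ℕ} (hm : m % 2 = 1) : ¬ IsSquare (2 * m) := by
  rintro ⟨s, hs⟩
  have h : s % 2 = 0 ∨ s % 2 = 1 := by omega
  rcases h with h | h
  · obtain ⟨r, rfl⟩ : ∃ r, s = 2 * r := ⟨s / 2, by omega⟩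
    have : 2 * m = 4 * (r * r) := by rw [hs]; ring
    omega
  · obtain ⟨r, rfl⟩ : ∃ r, s = 2 * r + 1 := ⟨s / 2, by omega⟩
    have : 2 * m = 2 * (2 * r * r + 2 * r) + 1 := by rw [hs]; ring
    omega

/-- Exactly one of the four variables is `2 mod 4` and the other three are odd. -/
lemma classes {x y z w M : ℕ} (h : x ^ 2 + y ^ 2 + z ^ 2 + w ^ 2 = 8 * M + 7)
    {P : Prop}
    (hA : ∀ i j c d, x = 2 * i + 1 → y = 2 * j + 1 → z = 4 * c + 2 → w = 2 * d + 1 →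
      z ^ 2 = 8 * (2 * c * (c + 1)) + 4 → w ^ 2 = 8 * (d * (d + 1) / 2) + 1 → P)
    (hB : ∀ i j c d, x = 4 * i + 2 → y = 2 * j + 1 → z = 2 * c + 1 → w = 2 * d + 1 →
      z ^ 2 = 8 * (c * (c + 1) / 2) + 1 → w ^ 2 = 8 * (d * (d + 1) / 2) + 1 → P)
    (hC : ∀ i j c d, x = 2 * i + 1 → y = 4 * j + 2 → z = 2 * c + 1 → w = 2 * d + 1 →
      z ^ 2 = 8 * (c * (c + 1) / 2) + 1 → w ^ 2 = 8 * (d * (d + 1) / 2) + 1 → P)
    (hD : x % 2 = 1 → y % 2 = 1 → z % 2 = 1 → P) : P := by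
  rcases cls x with ⟨i, hx, hx2⟩ | ⟨i, hx, hx2⟩ | ⟨i, hx2⟩ <;>
  rcases cls y with ⟨j, hy, hy2⟩ | ⟨j, hy, hy2⟩ | ⟨j, hy2⟩ <;>
  rcases cls z with ⟨c, hz, hz2⟩ | ⟨c, hz, hz2⟩ | ⟨c, hz2⟩ <;>
  rcases cls w with ⟨d, hw, hw2⟩ | ⟨d, hw, hw2⟩ | ⟨d, hw2⟩ <;>
  first
  | (exfalso; rw [hx2, hy2, hz2, hw2] at h; omega)
  | exact hA i j c d hx hy hz hw hz2 hw2
  | exact hB i j c d hx hy hz hw hz2 hw2
  | exact hC i j c d hx hy hz hw hz2 hw2
  | exact hD (by omega) (by omega) (by omega)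

/-- If all of `x, y, z` are odd then `2 k x y (a x² + b y² + c z²)` is not a square, for `k` and
`a + b + c` odd. -/
lemma not_sq_of_odd {k a b c x y z : ℕ} (hk : k % 2 = 1) (habc : (a + b + c) % 2 = 1)
    (hx : x % 2 = 1) (hy : y % 2 = 1) (hz : z % 2 = 1) :
    ¬ IsSquare (2 * k * x * y * (a * x ^ 2 + b * y ^ 2 + c * z ^ 2)) := by
  have e : 2 * k * x * y * (a * x ^ 2 + b * y ^ 2 + c * z ^ 2)
      = 2 * (k * x * y * (a * x ^ 2 + b * y ^ 2 + c * z ^ 2)) := by ring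
  rw [e]
  apply two_odd
  rw [← Nat.odd_iff] at *
  have hT : Odd (a * x ^ 2 + b * y ^ 2 + c * z ^ 2) := by
    have hx2 : Odd (x ^ 2) := hx.pow
    have hy2 : Odd (y ^ 2) := hy.pow
    have hz2 : Odd (z ^ 2) := hz.pow
    simp only [Nat.odd_add, Nat.odd_mul, Nat.even_mul, Nat.even_add] at *
    simp only [← Nat.not_even_iff_odd] at *
    tauto
  exact ((hk.mul hx).mul hy).mul hT

end Pool.Agent.FourSq
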