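import Mathlib
import Pool.Agent.FourSq.Bits
import Pool.Agent.FourSq.Parity

set_option autoImplicit false

/-! Counterexample for the triple (42, 98, 14) : `n = 56271`. -/

namespace Pool.Agent.FourSq

/-- Residue data. -/
def ents1 : List Entry :=
  [(5, 2, 11, 19, 13),
   (7, 1, 10, 23, 105),
   (11, 7, 10, 571, 1477),
   (13, 5, 10, 5659, 2533),
   (17, 15, 9, 107287, 23785),
   (19, 12, 9, 199411, 324877),
   (23, 3, 9, 340831, 8047777),
   (29, 11, 8, 332473075, 204397837),
   (31, 4, 8, 303908791, 1843574857),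
   (37, 14, 8, 96068509339, 41370444133),
   (41, 36, 8, 1870503675703, 328519579849),
   (43, 27, 8, 3678700564051, 5117392458157),
   (47, 6, 8, 4626135339999, 136111353015329),
   (53, 20, 8, 5310023542746835, 3697175711994157),
   (59, 37, 7, 156326468341437115, 420134283961986373),
   (61, 23, 7, 1662926210933060155, 642916798280633797),
   (67, 42, 7, 61808106872519771731, 85765845717156641197),
   (71, 9, 7, 20052041432995567487, 2341131200001827039361),
   (73, 64, 7, 9059857384996697084767, 384875580742593342625),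
   (79, 10, 7, 89932533647391829339959, 514530376159922758013129),
   (83, 52, 7, 2911111237809585785085595, 6760295319107447612563813),
   (89, 78, 7, 526807005835216593886842679, 92163013807473543562719433),
   (97, 85, 7, 152076272278209298711361952607, 6380052750319376475725948065)]

lemma ents1_valid : allL (validB (8 * 1) 7034) ents1 = true := by decide +kernel

/-- Local tables. -/
def tabs1 : Tabs :=
  (92633435803054835564271942785224902412037770383085840312635612877779173244928,
   2077167961780060807983030, 33554431, 562949953421311)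

lemma tabs1_valid : tabs1 = (locTab 56271 14 3 7 1 16, locTab 56271 14 3 7 1 9,
    locTab 56271 14 3 7 1 5, locTab 56271 14 3 7 1 7) := by
  have h : (Nat.beq tabs1.1 (locTab 56271 14 3 7 1 16) &&
    Nat.beq tabs1.2.1 (locTab 56271 14 3 7 1 9) &&
    Nat.beq tabs1.2.2.1 (locTab 56271 14 3 7 1 5) &&
    Nat.beq tabs1.2.2.2 (locTab 56271 14 3 7 1 7)) = true := by decide +kernel
  simp only [Bool.and_eq_true, Nat.beq_eq] at h
  obtain ⟨⟨⟨h1, h2⟩, h3⟩, h4⟩ := h
  exact Prod.ext h1 (Prod.ext h2 (Prod.ext h3 h4))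

lemma run1A : run 56271 14 3 7 1 4 (maskf (fun i => 2 * i * (i + 1)) 59)
    (maskf (fun j => 7033 - j * (j + 1) / 2) 119) ents1 tabs1 2 1 0 119 2 1 119 = true := by
  decide +kernel

lemma run1B : run 56271 14 3 7 1 1 (maskf (fun i => i * (i + 1) / 2) 119)
    (maskf (fun j => 7033 - j * (j + 1) / 2) 119) ents1 tabs1 4 2 0 59 2 1 119 = true := by
  decide +kernel

lemma run1C : run 56271 14 3 7 1 1 (maskf (fun i => i * (i + 1) / 2) 119)
    (maskf (fun j => 7033 - j * (j + 1) / 2) 119) ents1 tabs1 2 1 0 119 4 2 59 = true := by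
  decide +kernel

/-- `56271` has no representation `x² + y² + z² + w²` with `x y (42 x² + 98 y² + 14 z²)` a
square. -/
theorem first (x y z w : ℕ) (h : x ^ 2 + y ^ 2 + z ^ 2 + w ^ 2 = 56271) :
    ¬ IsSquare (x * y * (42 * x ^ 2 + 98 * y ^ 2 + 14 * z ^ 2)) := by
  have e : x * y * (42 * x ^ 2 + 98 * y ^ 2 + 14 * z ^ 2)
      = 14 * x * y * (3 * x ^ 2 + 7 * y ^ 2 + 1 * z ^ 2) := by ring
  rw [e]
  have hb : ∀ u : ℕ, u ^ 2 ≤ 56271 → u ≤ 237 := by
    intro u hu
    by_contra hcon
    push Not at hcon
    nlinarith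
  have hx := hb x (by omega)
  have hy := hb y (by omega)
  have hz := hb z (by omega)
  have hw := hb w (by omega)
  have hn : 56271 = 8 * 7033 + 7 := by norm_num
  apply classes (M := 7033) (h.trans hn)
  · intro i j c d hxi hyj hzc hwd hz2 hw2
    have h6 : 6 ≤ (2 * i + 1) * (2 * i + 1) + (2 * j + 1) * (2 * j + 1) + 4 := by nlinarith
    have := run_spec (k := 14) (a := 3) (b := 7) (c := 1) (z0 := 4) (M := 7033) (T := 7034)
      ents1_valid hn tabs1_valid run1A i j z w _ _ (by omega) (by omega) (by omega)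
      hz2 hw2 (maskf_spec (f := fun i => 2 * i * (i + 1)) c (by omega))
      (maskf_spec (f := fun j => 7033 - j * (j + 1) / 2) d (by omega)) (by omega) h6
      (by rw [← hxi, ← hyj]; exact h)
    rw [← hxi, ← hyj] at this
    exact this
  · intro i j c d hxi hyj hzc hwd hz2 hw2
    have h6 : 6 ≤ (4 * i + 2) * (4 * i + 2) + (2 * j + 1) * (2 * j + 1) + 1 := by nlinarith
    have := run_spec (k := 14) (a := 3) (b := 7) (c := 1) (z0 := 1) (M := 7033) (T := 7034)
      ents1_valid hn tabs1_valid run1B i j z w _ _ (by omega) (by omega) (by omega)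
      hz2 hw2 (maskf_spec (f := fun i => i * (i + 1) / 2) c (by omega))
      (maskf_spec (f := fun j => 7033 - j * (j + 1) / 2) d (by omega)) (by omega) h6
      (by rw [← hxi, ← hyj]; exact h)
    rw [← hxi, ← hyj] at this
    exact this
  · intro i j c d hxi hyj hzc hwd hz2 hw2
    have h6 : 6 ≤ (2 * i + 1) * (2 * i + 1) + (4 * j + 2) * (4 * j + 2) + 1 := by nlinarith
    have := run_spec (k := 14) (a := 3) (b := 7) (c := 1) (z0 := 1) (M := 7033) (T := 7034)
      ents1_valid hn tabs1_valid run1C i j z w _ _ (by omega) (by omega) (by omega)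
      hz2 hw2 (maskf_spec (f := fun i => i * (i + 1) / 2) c (by omega))
      (maskf_spec (f := fun j => 7033 - j * (j + 1) / 2) d (by omega)) (by omega) h6
      (by rw [← hxi, ← hyj]; exact h)
    rw [← hxi, ← hyj] at this
    exact this
  · intro h1 h2 h3
    exact not_sq_of_odd (k := 7) (by norm_num) (by norm_num) h1 h2 h3

end Pool.Agent.FourSq
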