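import Mathlib
import Pool.Agent.FourSq.Data2

set_option autoImplicit false

namespace Pool.Agent.FourSq

lemma run2A2_0 : run 822335 2 9 19 9 4 (maskf (fun i => 2 * i * (i + 1)) 227)
    (maskf (fun j => 102791 - j * (j + 1) / 2) 453) ents2 tabs2 2 1 160 40 2 1 453 = true := by
  decide +kernel

lemma run2A2_1 : run 822335 2 9 19 9 4 (maskf (fun i => 2 * i * (i + 1)) 227)
    (maskf (fun j => 102791 - j * (j + 1) / 2) 453) ents2 tabs2 2 1 200 40 2 1 453 = true := by
  decide +kernel

lemma run2A2_2 : run 822335 2 9 19 9 4 (maskf (fun i => 2 * i * (i + 1)) 227)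
    (maskf (fun j => 102791 - j * (j + 1) / 2) 453) ents2 tabs2 2 1 240 40 2 1 453 = true := by
  decide +kernel

lemma run2A2_3 : run 822335 2 9 19 9 4 (maskf (fun i => 2 * i * (i + 1)) 227)
    (maskf (fun j => 102791 - j * (j + 1) / 2) 453) ents2 tabs2 2 1 280 40 2 1 453 = true := by
  decide +kernel

lemma run2A2_4 : run 822335 2 9 19 9 4 (maskf (fun i => 2 * i * (i + 1)) 227)
    (maskf (fun j => 102791 - j * (j + 1) / 2) 453) ents2 tabs2 2 1 320 40 2 1 453 = true := by
  decide +kernel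

lemma run2A2_5 : run 822335 2 9 19 9 4 (maskf (fun i => 2 * i * (i + 1)) 227)
    (maskf (fun j => 102791 - j * (j + 1) / 2) 453) ents2 tabs2 2 1 360 40 2 1 453 = true := by
  decide +kernel

lemma run2A2_6 : run 822335 2 9 19 9 4 (maskf (fun i => 2 * i * (i + 1)) 227)
    (maskf (fun j => 102791 - j * (j + 1) / 2) 453) ents2 tabs2 2 1 400 40 2 1 453 = true := by
  decide +kernel

lemma run2A2_7 : run 822335 2 9 19 9 4 (maskf (fun i => 2 * i * (i + 1)) 227)
    (maskf (fun j => 102791 - j * (j + 1) / 2) 453) ents2 tabs2 2 1 440 13 2 1 453 = true := by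
  decide +kernel

theorem part2A2 (i j z w iz iw : ℕ) (hi0 : 160 ≤ i) (hi : i < 453) (hj : j < 453)
    (hz : z ^ 2 = 8 * iz + 4) (hw : w ^ 2 = 8 * iw + 1)
    (hS : (maskf (fun i => 2 * i * (i + 1)) 227).testBit iz = true)
    (hW : (maskf (fun j => 102791 - j * (j + 1) / 2) 453).testBit (102791 - iw) = true) (hT : iz < 102792)
    (h6 : 6 ≤ (2 * i + 1) * (2 * i + 1) + (2 * j + 1) * (2 * j + 1) + 4)
    (hn : (2 * i + 1) ^ 2 + (2 * j + 1) ^ 2 + z ^ 2 + w ^ 2 = 822335) :
    ¬ IsSquare (2 * (2 * i + 1) * (2 * j + 1) *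
        (9 * (2 * i + 1) ^ 2 + 19 * (2 * j + 1) ^ 2 + 9 * z ^ 2)) := by
  have hnM : 822335 = 8 * 102791 + 7 := by norm_num
  rcases Nat.lt_or_ge i 200 with h | h
  · exact run_spec (k := 2) (a := 9) (b := 19) (c := 9) (z0 := 4) (M := 102791) (T := 102792)
      ents2_valid hnM tabs2_valid run2A2_0 i j z w iz iw (by omega) (by omega) hj
      hz hw hS hW hT h6 hn
  rcases Nat.lt_or_ge i 240 with h | h
  · exact run_spec (k := 2) (a := 9) (b := 19) (c := 9) (z0 := 4) (M := 102791) (T := 102792)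
      ents2_valid hnM tabs2_valid run2A2_1 i j z w iz iw (by omega) (by omega) hj
      hz hw hS hW hT h6 hn
  rcases Nat.lt_or_ge i 280 with h | h
  · exact run_spec (k := 2) (a := 9) (b := 19) (c := 9) (z0 := 4) (M := 102791) (T := 102792)
      ents2_valid hnM tabs2_valid run2A2_2 i j z w iz iw (by omega) (by omega) hj
      hz hw hS hW hT h6 hn
  rcases Nat.lt_or_ge i 320 with h | h
  · exact run_spec (k := 2) (a := 9) (b := 19) (c := 9) (z0 := 4) (M := 102791) (T := 102792)
      ents2_valid hnM tabs2_valid run2A2_3 i j z w iz iw (by omega) (by omega) hj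
      hz hw hS hW hT h6 hn
  rcases Nat.lt_or_ge i 360 with h | h
  · exact run_spec (k := 2) (a := 9) (b := 19) (c := 9) (z0 := 4) (M := 102791) (T := 102792)
      ents2_valid hnM tabs2_valid run2A2_4 i j z w iz iw (by omega) (by omega) hj
      hz hw hS hW hT h6 hn
  rcases Nat.lt_or_ge i 400 with h | h
  · exact run_spec (k := 2) (a := 9) (b := 19) (c := 9) (z0 := 4) (M := 102791) (T := 102792)
      ents2_valid hnM tabs2_valid run2A2_5 i j z w iz iw (by omega) (by omega) hj
      hz hw hS hW hT h6 hn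
  rcases Nat.lt_or_ge i 440 with h | h
  · exact run_spec (k := 2) (a := 9) (b := 19) (c := 9) (z0 := 4) (M := 102791) (T := 102792)
      ents2_valid hnM tabs2_valid run2A2_6 i j z w iz iw (by omega) (by omega) hj
      hz hw hS hW hT h6 hn
  exact run_spec (k := 2) (a := 9) (b := 19) (c := 9) (z0 := 4) (M := 102791) (T := 102792)
      ents2_valid hnM tabs2_valid run2A2_7 i j z w iz iw (by omega) (by omega) hj
      hz hw hS hW hT h6 hn

end Pool.Agent.FourSq
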