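import Mathlib
import Pool.Agent.FourSq.SecondA1
import Pool.Agent.FourSq.SecondA2
import Pool.Agent.FourSq.SecondB1
import Pool.Agent.FourSq.SecondC1
import Pool.Agent.FourSq.Parity

set_option autoImplicit false

namespace Pool.Agent.FourSq

/-- `822335` has no representation `x² + y² + z² + w²` with `x y (18 x² + 38 y² + 18 z²)` a
square. -/
theorem second (x y z w : ℕ) (h : x ^ 2 + y ^ 2 + z ^ 2 + w ^ 2 = 822335) :
    ¬ IsSquare (x * y * (18 * x ^ 2 + 38 * y ^ 2 + 18 * z ^ 2)) := by
  have e : x * y * (18 * x ^ 2 + 38 * y ^ 2 + 18 * z ^ 2)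
      = 2 * x * y * (9 * x ^ 2 + 19 * y ^ 2 + 9 * z ^ 2) := by ring
  rw [e]
  have hb : ∀ u : ℕ, u ^ 2 ≤ 822335 → u ≤ 906 := by
    intro u hu
    by_contra hcon
    push Not at hcon
    nlinarith
  have hx := hb x (by omega)
  have hy := hb y (by omega)
  have hz := hb z (by omega)
  have hw := hb w (by omega)
  have hn : 822335 = 8 * 102791 + 7 := by norm_num
  apply classes (M := 102791) (h.trans hn)
  · intro i j c d hxi hyj hzc hwd hz2 hw2
    have h6 : 6 ≤ (2 * i + 1) * (2 * i + 1) + (2 * j + 1) * (2 * j + 1) + 4 := by nlinarith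
    have hS := maskf_spec (f := fun i => 2 * i * (i + 1)) (K := 227) c (by omega)
    have hW := maskf_spec (f := fun j => 102791 - j * (j + 1) / 2) (K := 453) d (by omega)
    rw [hxi, hyj] at h ⊢
    rcases Nat.lt_or_ge i 160 with hi | hi
    · exact part2A1 i j z w _ _ (by omega) hi (by omega) hz2 hw2 hS hW (by omega) h6 h
    · exact part2A2 i j z w _ _ hi (by omega) (by omega) hz2 hw2 hS hW (by omega) h6 h
  · intro i j c d hxi hyj hzc hwd hz2 hw2
    have h6 : 6 ≤ (4 * i + 2) * (4 * i + 2) + (2 * j + 1) * (2 * j + 1) + 1 := by nlinarith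
    have hS := maskf_spec (f := fun i => i * (i + 1) / 2) (K := 453) c (by omega)
    have hW := maskf_spec (f := fun j => 102791 - j * (j + 1) / 2) (K := 453) d (by omega)
    rw [hxi, hyj] at h ⊢
    exact part2B1 i j z w _ _ (by omega) (by omega) (by omega) hz2 hw2 hS hW (by omega) h6 h
  · intro i j c d hxi hyj hzc hwd hz2 hw2
    have h6 : 6 ≤ (2 * i + 1) * (2 * i + 1) + (4 * j + 2) * (4 * j + 2) + 1 := by nlinarith
    have hS := maskf_spec (f := fun i => i * (i + 1) / 2) (K := 453) c (by omega)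
    have hW := maskf_spec (f := fun j => 102791 - j * (j + 1) / 2) (K := 453) d (by omega)
    rw [hxi, hyj] at h ⊢
    exact part2C1 i j z w _ _ (by omega) (by omega) (by omega) hz2 hw2 hS hW (by omega) h6 h
  · intro h1 h2 h3
    exact not_sq_of_odd (k := 1) (by norm_num) (by norm_num) h1 h2 h3

end Pool.Agent.FourSq
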